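import Pool.Agent.H32.ConeD

set_option autoImplicit false

open Pool.Agent.H32.Cone

theorem Pool.Agent.Results.MP_56eb46_lc.Minimal.result (k : ℕ) (hk : 3 ≤ k) (X : Type) [Finite X]
    (L : Language X) (hb : Bounded k L) (h : InCone (Sne k) L) :
    L.IsRegular ∨ ∀ (Y : Type) [Finite Y] (K : Language Y), InCone L K ↔ InCone (Sne k) K :=
  (main hk hb h).imp_right fun h' _ _ _ => ⟨h.trans, h'.trans⟩
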